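import Mathlib

set_option autoImplicit false

namespace Cplx823

open Set

/-- The factor of length `m` of the infinite word `u` that starts at position `i`. -/
def fac {A : Type} (u : ℕ → A) (i m : ℕ) : List A := (List.range m).map fun t => u (i + t)

/-- The set of all factors of length `m` of `u`. -/
def factors {A : Type} (u : ℕ → A) (m : ℕ) : Set (List A) := Set.range fun i => fac u i m

/-- The complexity function `p_u(m)`. -/
noncomputable def p {A : Type} (u : ℕ → A) (m : ℕ) : ℕ := (factors u m).ncard

/-- The first difference `s_u(n) = p_u(n+1) - p_u(n)`. -/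
noncomputable def s {A : Type} (u : ℕ → A) (n : ℕ) : ℤ := (p u (n + 1) : ℤ) - p u n

/-- The set of values `s_u(n)`, over all infinite words `u` over a finite alphabet with
`p_u(m) ≤ a m + 1` for all `m ≥ 0` and all `n ≥ 0`; `B(a)` is its supremum. -/
def BSet (a : ℝ) : Set ℤ :=
  {x | ∃ (q : ℕ) (u : ℕ → Fin q), (∀ m : ℕ, (p u m : ℝ) ≤ a * m + 1) ∧ ∃ n : ℕ, x = s u n}

/-- `B(a)`, the supremum of the values, in the extended reals. -/
noncomputable def B (a : ℝ) : EReal := ⨆ x ∈ BSet a, (((x : ℤ) : ℝ) : EReal)

/-! ### the words -/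

variable (k j : ℕ)

/-- positions of the ones -/
def c : ℕ → ℕ
  | 0 => k + j
  | t + 1 => c t + (k + t + 1)

lemma c_mono : StrictMono (c k j) :=
  strictMono_nat_of_lt_succ fun t => by show c k j t < c k j t + (k + t + 1); omega

lemma c_succ (t : ℕ) : c k j (t + 1) = c k j t + (k + t + 1) := rfl

open Classical in
/-- the word: `1` exactly at the positions `c 0, …, c j` -/
noncomputable def w (x : ℕ) : Fin 2 := if ∃ t, t ≤ j ∧ x = c k j t then 1 else 0

lemma w_one {x t : ℕ} (ht : t ≤ j) (hx : x = c k j t) : w k j x = 1 := by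
  unfold w; rw [if_pos ⟨t, ht, hx⟩]

lemma w_zero {x : ℕ} (h : ∀ t, t ≤ j → x ≠ c k j t) : w k j x = 0 := by
  unfold w; rw [if_neg]; rintro ⟨t, ht, hx⟩; exact h t ht hx

/-- zero word -/
def zer (m : ℕ) : List (Fin 2) := (List.range m).map fun _ => 0

/-- word with a single `1` at offset `y` -/
def sing (m y : ℕ) : List (Fin 2) := (List.range m).map fun t => if t = y then 1 else 0

lemma fac_congr {A : Type} {u : ℕ → A} {i m : ℕ} {f : ℕ → A} (h : ∀ t < m, u (i + t) = f t) :
    fac u i m = (List.range m).map f := by
  unfold fac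
  exact List.map_congr_left fun t ht => h t (List.mem_range.mp ht)

lemma fac_succ {A : Type} (u : ℕ → A) (i m : ℕ) : fac u i (m + 1) = fac u i m ++ [u (i + m)] := by
  unfold fac
  rw [List.range_succ, List.map_append, List.map_singleton]

lemma cover (m i : ℕ) : fac (w k j) i m = zer m ∨
    (∃ x, x < m ∧ x < k + j + 1 ∧ fac (w k j) i m = sing m x) ∨
    (∃ t, t < j ∧ c k j (t + 1) + 1 - m ≤ i ∧ i ≤ c k j t) := by
  have hm := c_mono k j
  by_cases h2 : ∃ t, t < j ∧ c k j (t + 1) + 1 - m ≤ i ∧ i ≤ c k j t
  · exact Or.inr (Or.inr h2)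
  by_cases h1 : ∃ t, t ≤ j ∧ i ≤ c k j t ∧ c k j t < i + m
  · right; left
    obtain ⟨t, ht, hit, htm⟩ := h1
    refine ⟨c k j t - i, by omega, ?_, ?_⟩
    · rcases t with _ | t
      · show k + j - i < k + j + 1; omega
      · have : ¬ (i ≤ c k j t) := by
          intro hi
          exact h2 ⟨t, by omega, by omega, hi⟩
        rw [c_succ]; omega
    · refine fac_congr ?_
      intro r hr
      by_cases he : r = c k j t - i
      · rw [if_pos he]
        exact w_one k j ht (by omega)
      · rw [if_neg he]
        apply w_zero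
        intro t' ht' hx
        rcases lt_trichotomy t t' with hlt | heq | hgt
        · have h3 : c k j (t + 1) ≤ c k j t' := hm.monotone hlt
          exact h2 ⟨t, by omega, by omega, hit⟩
        · subst heq; omega
        · have h3 : c k j (t' + 1) ≤ c k j t := hm.monotone hgt
          exact h2 ⟨t', by omega, by omega, by omega⟩
  · left
    refine fac_congr ?_
    intro r hr
    apply w_zero
    intro t ht hx
    exact h1 ⟨t, ht, by omega, by omega⟩

/-- finset of starting positions -/
def T (m : ℕ) : Finset ℕ := (Finset.range j).biUnion fun t =>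
  Finset.Icc (c k j (t + 1) + 1 - m) (c k j t)

lemma T_card (m : ℕ) : (T k j m).card ≤ j * (m - (k + 1)) := by
  unfold T
  refine Finset.card_biUnion_le.trans ?_
  refine (Finset.sum_le_card_nsmul _ _ (m - (k + 1)) ?_).trans ?_
  · intro t _
    rw [Nat.card_Icc, c_succ]; omega
  · simp

lemma p_le (m : ℕ) : p (w k j) m ≤ 1 + min m (k + j + 1) + j * (m - (k + 1)) := by
  classical
  let S : Finset (List (Fin 2)) := ({zer m} : Finset _) ∪
    ((Finset.range (min m (k + j + 1))).image (sing m)) ∪
    ((T k j m).image fun i => fac (w k j) i m)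
  have hsub : factors (w k j) m ⊆ (S : Set (List (Fin 2))) := by
    rintro _ ⟨i, rfl⟩
    simp only [S, Finset.coe_union, Set.mem_union, Finset.mem_coe, Finset.mem_image,
      Finset.mem_singleton, Finset.mem_range]
    rcases cover k j m i with h | ⟨x, hx1, hx2, h⟩ | ⟨t, ht, h1, h2⟩
    · left; left; exact h
    · left; right; exact ⟨x, lt_min hx1 hx2, h.symm⟩
    · right
      refine ⟨i, ?_, rfl⟩
      unfold T
      rw [Finset.mem_biUnion]
      exact ⟨t, Finset.mem_range.mpr ht, Finset.mem_Icc.mpr ⟨h1, h2⟩⟩
  have h1 : p (w k j) m ≤ S.card := by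
    unfold p
    rw [← Set.ncard_coe_finset S]
    exact Set.ncard_le_ncard hsub (Finset.finite_toSet S)
  refine h1.trans ?_
  refine (Finset.card_union_le _ _).trans ?_
  refine Nat.add_le_add ?_ (Finset.card_image_le.trans (T_card k j m))
  refine (Finset.card_union_le _ _).trans ?_
  refine Nat.add_le_add (by simp) (Finset.card_image_le.trans (by simp))

lemma p_le' (m : ℕ) : p (w k j) m ≤ c k j j + 2 := by
  classical
  let S : Finset (List (Fin 2)) := ({zer m} : Finset _) ∪
    ((Finset.range (c k j j + 1)).image fun i => fac (w k j) i m)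
  have hsub : factors (w k j) m ⊆ (S : Set (List (Fin 2))) := by
    rintro _ ⟨i, rfl⟩
    simp only [S, Finset.coe_union, Set.mem_union, Finset.mem_coe, Finset.mem_image,
      Finset.mem_singleton, Finset.mem_range]
    by_cases hi : i < c k j j + 1
    · right; exact ⟨i, hi, rfl⟩
    · left
      refine fac_congr ?_
      intro r hr
      apply w_zero
      intro t ht hx
      have : c k j t ≤ c k j j := (c_mono k j).monotone ht
      omega
  have h1 : p (w k j) m ≤ S.card := by
    unfold p
    rw [← Set.ncard_coe_finset S]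
    exact Set.ncard_le_ncard hsub (Finset.finite_toSet S)
  refine h1.trans ?_
  refine (Finset.card_union_le _ _).trans ?_
  have h2 : (({zer m} : Finset (List (Fin 2)))).card = 1 := by simp
  have h3 : ((Finset.range (c k j j + 1)).image fun i => fac (w k j) i m).card ≤ c k j j + 1 :=
    Finset.card_image_le.trans (by simp)
  omega

lemma c_le (t : ℕ) (ht : t ≤ j) : c k j t ≤ (t + 1) * (k + j) := by
  induction t with
  | zero => show k + j ≤ _; omega
  | succ t ih =>
    have := ih (by omega)
    rw [c_succ]
    nlinarith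

end Cplx823
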