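import Pool.Agent.Cplx823.Basic

set_option autoImplicit false

namespace Cplx823

open Set

lemma fac_length {A : Type} (u : ℕ → A) (i m : ℕ) : (fac u i m).length = m := by
  unfold fac; simp

lemma factors_finite (u : ℕ → Fin 2) (m : ℕ) : (factors u m).Finite := by
  refine (List.finite_length_eq (Fin 2) m).subset ?_
  rintro _ ⟨i, rfl⟩
  exact fac_length u i m

lemma p_succ_ge (u : ℕ → Fin 2) (n : ℕ) (R : Finset (List (Fin 2)))
    (h0 : ∀ r ∈ R, r ++ [0] ∈ factors u (n + 1)) (h1 : ∀ r ∈ R, r ++ [1] ∈ factors u (n + 1)) :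
    p u n + R.card ≤ p u (n + 1) := by
  set F0 : Set (List (Fin 2)) := {r | r ++ [0] ∈ factors u (n + 1)} with hF0
  set F1 : Set (List (Fin 2)) := {r | r ++ [1] ∈ factors u (n + 1)} with hF1
  have hsub : ∀ (b : Fin 2) (r : List (Fin 2)), r ++ [b] ∈ factors u (n + 1) →
      r ∈ factors u n := by
    rintro b r ⟨i, hi⟩
    have hi' : fac u i n ++ [u (i + n)] = r ++ [b] := by rw [← fac_succ]; exact hi
    have := (List.append_inj' hi' rfl).1
    exact ⟨i, this⟩
  have e1 : factors u n = F0 ∪ F1 := by
    ext r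
    constructor
    · rintro ⟨i, rfl⟩
      have hx : u (i + n) = 0 ∨ u (i + n) = 1 := by
        rcases u (i + n) with ⟨v, hv⟩
        interval_cases v
        · left; rfl
        · right; rfl
      rcases hx with hx | hx
      · left
        refine ⟨i, ?_⟩
        show fac u i (n + 1) = fac u i n ++ [0]
        rw [fac_succ, hx]
      · right
        refine ⟨i, ?_⟩
        show fac u i (n + 1) = fac u i n ++ [1]
        rw [fac_succ, hx]
    · rintro (hr | hr)
      · exact hsub 0 r hr
      · exact hsub 1 r hr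
  have e2 : factors u (n + 1) = ((fun r : List (Fin 2) => r ++ [(0 : Fin 2)]) '' F0) ∪
      ((fun r : List (Fin 2) => r ++ [(1 : Fin 2)]) '' F1) := by
    ext v
    constructor
    · rintro ⟨i, rfl⟩
      have hx : u (i + n) = 0 ∨ u (i + n) = 1 := by
        rcases u (i + n) with ⟨v, hv⟩
        interval_cases v
        · left; rfl
        · right; rfl
      rcases hx with hx | hx
      · left
        refine ⟨fac u i n, ⟨i, ?_⟩, ?_⟩
        · show fac u i (n + 1) = fac u i n ++ [0]
          rw [fac_succ, hx]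
        · show fac u i n ++ [0] = fac u i (n + 1)
          rw [fac_succ, hx]
      · right
        refine ⟨fac u i n, ⟨i, ?_⟩, ?_⟩
        · show fac u i (n + 1) = fac u i n ++ [1]
          rw [fac_succ, hx]
        · show fac u i n ++ [1] = fac u i (n + 1)
          rw [fac_succ, hx]
    · rintro (⟨r, hr, rfl⟩ | ⟨r, hr, rfl⟩)
      · exact hr
      · exact hr
  have inj : ∀ b : Fin 2, Function.Injective (fun r : List (Fin 2) => r ++ [b]) := by
    intro b r r' h
    exact (List.append_inj' h rfl).1
  have f0 : F0.Finite := (factors_finite u n).subset (by rw [e1]; exact subset_union_left)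
  have f1 : F1.Finite := (factors_finite u n).subset (by rw [e1]; exact subset_union_right)
  have d : Disjoint ((fun r : List (Fin 2) => r ++ [(0 : Fin 2)]) '' F0)
      ((fun r : List (Fin 2) => r ++ [(1 : Fin 2)]) '' F1) := by
    rw [Set.disjoint_left]
    rintro _ ⟨r, _, rfl⟩ ⟨r', _, h⟩
    have h2 := (List.append_inj' h rfl).2
    simp at h2
  have c1 : p u (n + 1) = F0.ncard + F1.ncard := by
    unfold p
    rw [e2, Set.ncard_union_eq d (f0.image _) (f1.image _), Set.ncard_image_of_injective _ (inj 0),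
      Set.ncard_image_of_injective _ (inj 1)]
  have c2 : p u n + (F0 ∩ F1).ncard = F0.ncard + F1.ncard := by
    unfold p
    rw [e1]
    exact Set.ncard_union_add_ncard_inter F0 F1 f0 f1
  have c3 : R.card ≤ (F0 ∩ F1).ncard := by
    rw [← Set.ncard_coe_finset R]
    refine Set.ncard_le_ncard ?_ (f0.subset inter_subset_left)
    intro r hr
    exact ⟨h0 r hr, h1 r hr⟩
  omega

variable (k j : ℕ)

lemma w_between {x t : ℕ} (h1 : c k j t < x) (h2 : x < c k j (t + 1)) : w k j x = 0 := by
  apply w_zero
  intro t' _ hx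
  subst hx
  have a1 := (c_mono k j).lt_iff_lt.mp h1
  have a2 := (c_mono k j).lt_iff_lt.mp h2
  omega

lemma w_before {x : ℕ} (h : x < k + j) : w k j x = 0 := by
  apply w_zero
  intro t' _ hx
  subst hx
  have a1 : c k j 0 ≤ c k j t' := (c_mono k j).monotone (Nat.zero_le _)
  have a2 : c k j 0 = k + j := rfl
  omega

lemma w_after {x : ℕ} (h : c k j j < x) : w k j x = 0 := by
  apply w_zero
  intro t' ht' hx
  subst hx
  have a1 : c k j t' ≤ c k j j := (c_mono k j).monotone ht'
  omega

lemma fac_sing {m i y : ℕ} (h1 : y < m → w k j (i + y) = 1)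
    (h0 : ∀ r < m, r ≠ y → w k j (i + r) = 0) : fac (w k j) i m = sing m y := by
  refine fac_congr ?_
  intro r hr
  by_cases he : r = y
  · subst he; rw [if_pos rfl]; exact h1 hr
  · rw [if_neg he]; exact h0 r hr he

lemma c_ge (t : ℕ) : k + j ≤ c k j t := (c_mono k j).monotone (Nat.zero_le t)

/-- just before a one there are zeros -/
lemma w_just_before {t d : ℕ} (hd : 0 < d) (hd' : d < k + j) (hd2 : 1 ≤ t → d < k + t) :
    w k j (c k j t - d) = 0 := by
  rcases t with _ | t
  · apply w_before
    show k + j - d < k + j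
    omega
  · have := hd2 (by omega)
    have h3 := c_ge k j t
    apply w_between (t := t)
    · rw [c_succ]; omega
    · rw [c_succ]; omega

theorem s_ge (hk : j ≤ k) (hk1 : 1 ≤ k) (hj : 1 ≤ j) : (j : ℤ) + 1 ≤ s (w k j) (k + j) := by
  classical
  let R : Finset (List (Fin 2)) := insert (zer (k + j)) ((Finset.range j).image (sing (k + j)))
  have hcard : R.card = j + 1 := by
    have hinj : Set.InjOn (sing (k + j)) (Finset.range j : Set ℕ) := by
      intro y hy y' hy' h
      have hy1 : y < j := by simpa using hy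
      have hm := List.map_inj_left.mp h y (List.mem_range.mpr (by omega))
      by_contra hne
      simp [hne] at hm
    have hnot : zer (k + j) ∉ (Finset.range j).image (sing (k + j)) := by
      intro h
      obtain ⟨y, hy, h⟩ := Finset.mem_image.mp h
      have hy1 : y < j := by simpa using hy
      have hm := List.map_inj_left.mp h y (List.mem_range.mpr (by omega))
      simp at hm
    show (insert _ _ : Finset _).card = j + 1
    rw [Finset.card_insert_of_notMem hnot, Finset.card_image_of_injOn hinj, Finset.card_range]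
  have hcj : c k j j = c k j (j - 1) + (k + j) := by
    obtain ⟨j', rfl⟩ : ∃ j', j = j' + 1 := ⟨j - 1, by omega⟩
    simp only [Nat.add_sub_cancel]
    rw [c_succ]; rfl
  have h0 : ∀ r ∈ R, r ++ [0] ∈ factors (w k j) (k + j + 1) := by
    intro r hr
    rcases Finset.mem_insert.mp hr with rfl | hr
    · refine ⟨c k j j + 1, ?_⟩
      show fac (w k j) (c k j j + 1) (k + j + 1) = _
      rw [fac_succ, w_after k j (by omega)]
      congr 1
      exact fac_congr fun t _ => w_after k j (by omega)
    · obtain ⟨y, hy, rfl⟩ := Finset.mem_image.mp hr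
      have hy1 : y < j := by simpa using hy
      have hge := c_ge k j j
      refine ⟨c k j j - y, ?_⟩
      show fac (w k j) (c k j j - y) (k + j + 1) = _
      rw [fac_succ, w_after k j (by omega)]
      congr 1
      apply fac_sing
      · intro _
        exact w_one k j le_rfl (by omega)
      · intro r hr hne
        rcases lt_or_gt_of_ne hne with h | h
        · have e : c k j j - y + r = c k j j - (y - r) := by omega
          rw [e]
          exact w_just_before k j (by omega) (by omega) (fun _ => by omega)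
        · exact w_after k j (by omega)
  have h1 : ∀ r ∈ R, r ++ [1] ∈ factors (w k j) (k + j + 1) := by
    intro r hr
    rcases Finset.mem_insert.mp hr with rfl | hr
    · refine ⟨0, ?_⟩
      show fac (w k j) 0 (k + j + 1) = _
      have e : w k j (0 + (k + j)) = 1 := w_one k j (Nat.zero_le j) (by show _ = k + j; omega)
      rw [fac_succ, e]
      congr 1
      exact fac_congr fun t ht => w_before k j (by omega)
    · obtain ⟨y, hy, rfl⟩ := Finset.mem_image.mp hr
      have hy1 : y < j := by simpa using hy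
      obtain ⟨t, ht⟩ : ∃ t, j = y + (t + 1) := ⟨j - y - 1, by omega⟩
      have hge := c_ge k j t
      refine ⟨c k j t - y, ?_⟩
      show fac (w k j) (c k j t - y) (k + j + 1) = _
      have e : w k j (c k j t - y + (k + j)) = 1 := by
        refine w_one k j (t := t + 1) (by omega) ?_
        rw [c_succ]; omega
      rw [fac_succ, e]
      congr 1
      apply fac_sing
      · intro _
        exact w_one k j (t := t) (by omega) (by omega)
      · intro r hr hne
        rcases lt_or_gt_of_ne hne with h | h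
        · have e : c k j t - y + r = c k j t - (y - r) := by omega
          rw [e]
          exact w_just_before k j (by omega) (by omega) (fun _ => by omega)
        · apply w_between (t := t)
          · omega
          · rw [c_succ]; omega
  have key := p_succ_ge (w k j) (k + j) R h0 h1
  rw [hcard] at key
  unfold s
  have : ((p (w k j) (k + j) + (j + 1) : ℕ) : ℤ) ≤ (p (w k j) (k + j + 1) : ℤ) := by
    exact_mod_cast key
  push_cast at this
  linarith

theorem p_bound (a : ℝ) (hj : 1 ≤ j) (ha : ((j : ℝ) + 1) / 2 < a)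
    (hk : (j : ℝ) * (j + 1) + 1 ≤ (a - ((j : ℝ) + 1) / 2) * k) (m : ℕ) :
    (p (w k j) m : ℝ) ≤ a * m + 1 := by
  have hj' : (1 : ℝ) ≤ j := by exact_mod_cast hj
  have ha1 : 1 < a := by linarith
  set δ : ℝ := a - ((j : ℝ) + 1) / 2 with hδ
  have hδ0 : 0 < δ := by rw [hδ]; linarith
  have haδ : a = ((j : ℝ) + 1) / 2 + δ := by rw [hδ]; ring
  rcases Nat.lt_or_ge (k + 1) m with hm | hm
  · have hkm : (k : ℝ) ≤ m := by exact_mod_cast (by omega : k ≤ m)
    have hδm : (j : ℝ) * (j + 1) + 1 ≤ δ * m :=
      hk.trans (mul_le_mul_of_nonneg_left hkm hδ0.le)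
    rcases Nat.lt_or_ge (2 * k) m with hm2 | hm2
    · have h1 := p_le' k j m
      have h2 := c_le k j j le_rfl
      have h3 : p (w k j) m ≤ (j + 1) * (k + j) + 2 := by omega
      have h4 : (p (w k j) m : ℝ) ≤ ((j : ℝ) + 1) * (k + j) + 2 := by exact_mod_cast h3
      have h5 : (2 : ℝ) * k ≤ m := by exact_mod_cast hm2.le
      rw [haδ]
      nlinarith
    · have h1 := p_le k j m
      have h2 : p (w k j) m + (j * (k + 1)) ≤ 1 + (k + j + 1) + j * m := by
        have h3 : j * (m - (k + 1)) + j * (k + 1) = j * m := by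
          rw [← mul_add]; congr 1; omega
        have h4 : min m (k + j + 1) ≤ k + j + 1 := min_le_right _ _
        omega
      have h4 : (p (w k j) m : ℝ) + ((j : ℝ) * (k + 1)) ≤ 1 + (k + j + 1) + j * m := by
        exact_mod_cast h2
      have h5 : (m : ℝ) ≤ 2 * k := by exact_mod_cast hm2
      rw [haδ]
      nlinarith
  · have h1 := p_le k j m
    have h2 : m - (k + 1) = 0 := by omega
    rw [h2, mul_zero] at h1
    have h3 : p (w k j) m ≤ 1 + m := by
      have : min m (k + j + 1) ≤ m := min_le_left _ _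
      omega
    have h4 : (p (w k j) m : ℝ) ≤ 1 + m := by exact_mod_cast h3
    have h5 : (0 : ℝ) ≤ m := Nat.cast_nonneg m
    nlinarith

theorem exists_word (a : ℝ) (ha1 : 1 < a) (x : ℤ) (hx : (x : ℝ) < 2 * a) :
    ∃ y ∈ BSet a, x ≤ y := by
  -- reduce to `x ≥ 2`
  wlog hx2 : 2 ≤ x generalizing x
  · obtain ⟨y, hy, h⟩ := this 2 (by push_cast; linarith) le_rfl
    exact ⟨y, hy, by omega⟩
  obtain ⟨j, hj⟩ : ∃ j : ℕ, x = (j : ℤ) + 1 := ⟨(x - 1).toNat, by omega⟩
  have hj1 : 1 ≤ j := by omega
  have ha : ((j : ℝ) + 1) / 2 < a := by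
    rw [hj] at hx; push_cast at hx; linarith
  obtain ⟨k₀, hk₀⟩ := exists_nat_ge (((j : ℝ) * (j + 1) + 1) / (a - ((j : ℝ) + 1) / 2))
  have hδ : 0 < a - ((j : ℝ) + 1) / 2 := by linarith
  have hk : (j : ℝ) * (j + 1) + 1 ≤ (a - ((j : ℝ) + 1) / 2) * ((k₀ + j : ℕ) : ℝ) := by
    have h1 := (div_le_iff₀ hδ).mp hk₀
    have h2 : (k₀ : ℝ) ≤ ((k₀ + j : ℕ) : ℝ) := by exact_mod_cast Nat.le_add_right _ _
    nlinarith
  refine ⟨s (w (k₀ + j) j) (k₀ + j + j), ⟨2, w (k₀ + j) j, p_bound (k₀ + j) j a hj1 ha hk, _,
    rfl⟩, ?_⟩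
  rw [hj]
  exact s_ge (k₀ + j) j (by omega) (by omega) hj1

theorem main : ∀ a : ℝ, 1 < a → (((⌈2 * a⌉ - 1 : ℤ) : ℝ) : EReal) ≤ B a := by
  intro a ha
  obtain ⟨y, hy, h⟩ := exists_word a ha (⌈2 * a⌉ - 1) (by
    push_cast
    have := Int.ceil_lt_add_one (2 * a)
    linarith)
  unfold B
  refine le_trans ?_ (le_iSup₂ (f := fun (x : ℤ) (_ : x ∈ BSet a) => (((x : ℤ) : ℝ) : EReal)) y hy)
  exact_mod_cast h

end Cplx823
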