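import Pool.Agent.Cplx823.Final

set_option autoImplicit false

namespace Cplx823

open Set

section mseq

variable {r : ℕ}

/-- a functional vanishing on `g^i z` for `i < r` vanishes on all `g^i z` -/
lemma recur {F : Type} [Field F] [Algebra (ZMod 2) F] [FiniteDimensional (ZMod 2) F]
    (hr : Module.finrank (ZMod 2) F = r) (l : F →ₗ[ZMod 2] ZMod 2) (g z : F)
    (h : ∀ i < r, l (g ^ i * z) = 0) : ∀ n, l (g ^ n * z) = 0 := by
  set f := minpoly (ZMod 2) g with hf
  have hint : IsIntegral (ZMod 2) g := IsIntegral.of_finite (ZMod 2) g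
  have hmon : f.Monic := minpoly.monic hint
  have hdeg : f.natDegree ≤ r := by rw [← hr]; exact minpoly.natDegree_le g
  have hev : Polynomial.aeval g f = 0 := minpoly.aeval _ _
  intro n
  induction n using Nat.strong_induction_on with
  | _ n ih =>
    by_cases hn : n < r
    · exact h n hn
    · have h1 : (0 : F) = g ^ (n - f.natDegree) * z * Polynomial.aeval g f := by
        rw [hev, mul_zero]
      rw [Polynomial.aeval_eq_sum_range, Finset.sum_range_succ, mul_add, Finset.mul_sum] at h1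
      have h2 : l 0 = l (∑ i ∈ Finset.range f.natDegree, g ^ (n - f.natDegree) * z *
          (f.coeff i • g ^ i) + g ^ (n - f.natDegree) * z *
          (f.coeff f.natDegree • g ^ f.natDegree)) := congrArg l h1
      rw [map_zero, map_add, map_sum] at h2
      have h3 : ∑ i ∈ Finset.range f.natDegree,
          l (g ^ (n - f.natDegree) * z * (f.coeff i • g ^ i)) = 0 := by
        apply Finset.sum_eq_zero
        intro i hi
        have hi' := Finset.mem_range.mp hi
        have e : g ^ (n - f.natDegree) * z * (f.coeff i • g ^ i) =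
            f.coeff i • (g ^ (n - f.natDegree + i) * z) := by
          rw [mul_smul_comm, pow_add]; congr 1; ring
        rw [e, map_smul, ih _ (by omega), smul_zero]
      rw [h3, zero_add, hmon.coeff_natDegree, one_smul] at h2
      have e : g ^ (n - f.natDegree) * z * g ^ f.natDegree = g ^ n * z := by
        have : n = (n - f.natDegree) + f.natDegree := by omega
        conv_rhs => rw [this, pow_add]
        ring
      rw [e] at h2
      exact h2.symm

end mseq

lemma factors_finite_of_fintype {A : Type} [Finite A] (u : ℕ → A) (m : ℕ) :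
    (factors u m).Finite := by
  refine (List.finite_length_eq A m).subset ?_
  rintro _ ⟨i, rfl⟩
  exact fac_length u i m

lemma ncard_lists (m : ℕ) : {l : List (ZMod 2) | l.length = m}.ncard = 2 ^ m := by
  have : Nat.card (List.Vector (ZMod 2) m) = 2 ^ m := by
    rw [Nat.card_eq_fintype_card, card_vector, ZMod.card]
  exact this

lemma p_le_two_pow (u : ℕ → ZMod 2) (m : ℕ) : p u m ≤ 2 ^ m := by
  unfold p
  rw [← ncard_lists m]
  refine Set.ncard_le_ncard ?_ (List.finite_length_eq (ZMod 2) m)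
  rintro _ ⟨i, rfl⟩
  exact fac_length u i m

/-- There is a binary word with few factors of each length and nearly all factors of length `r`. -/
theorem exists_mseq (r : ℕ) (hr : 1 ≤ r) : ∃ u : ℕ → ZMod 2,
    (∀ m, p u m ≤ 2 ^ r - 1) ∧ p u r = 2 ^ r - 1 := by
  classical
  have : Fact (Nat.Prime 2) := ⟨Nat.prime_two⟩
  have hr0 : r ≠ 0 := by omega
  let F := GaloisField 2 r
  have : Finite F := by
    have := GaloisField.card 2 r hr0
    exact Nat.finite_of_card_ne_zero (by rw [this]; positivity)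
  haveI : Fintype F := Fintype.ofFinite F
  have hcard : Fintype.card F = 2 ^ r := by
    rw [← Nat.card_eq_fintype_card]; exact GaloisField.card 2 r hr0
  have hfr : Module.finrank (ZMod 2) F = r := GaloisField.finrank 2 hr0
  obtain ⟨g, hg⟩ := IsCyclic.exists_monoid_generator (α := Fˣ)
  let bas := Module.finBasis (ZMod 2) F
  have hpos : 0 < Module.finrank (ZMod 2) F := by rw [hfr]; omega
  let l : F →ₗ[ZMod 2] ZMod 2 := bas.coord ⟨0, hpos⟩
  have hl : l (bas ⟨0, hpos⟩) ≠ 0 := by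
    show bas.coord ⟨0, hpos⟩ (bas ⟨0, hpos⟩) ≠ 0
    simp
  let Φ : ℕ → Fˣ → List (ZMod 2) := fun m x =>
    (List.range m).map fun t => l ((g : F) ^ t * (x : F))
  let u : ℕ → ZMod 2 := fun i => l ((g : F) ^ i)
  have hfac : ∀ i m, fac u i m = Φ m (g ^ i) := by
    intro i m
    show (List.range m).map (fun t => l ((g : F) ^ (i + t))) = (List.range m).map _
    apply List.map_congr_left
    intro t _
    show l ((g : F) ^ (i + t)) = l ((g : F) ^ t * ((g ^ i : Fˣ) : F))
    rw [Units.val_pow_eq_pow_val, ← pow_add, add_comm]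
  have hfs : ∀ m, factors u m = Set.range (Φ m) := by
    intro m
    ext v
    constructor
    · rintro ⟨i, rfl⟩
      exact ⟨g ^ i, (hfac i m).symm⟩
    · rintro ⟨x, rfl⟩
      obtain ⟨i, hi⟩ := hg x
      refine ⟨i, ?_⟩
      show fac u i m = Φ m x
      rw [hfac, ← hi]
  have hunits : Nat.card Fˣ = 2 ^ r - 1 := by
    rw [Nat.card_eq_fintype_card, Fintype.card_units, hcard]
  refine ⟨u, ?_, ?_⟩
  · intro m
    unfold p
    rw [hfs, ← hunits, ← Set.image_univ, ← Set.ncard_univ]
    exact Set.ncard_image_le (Set.finite_univ)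
  · unfold p
    rw [hfs, ← hunits, ← Set.image_univ, ← Set.ncard_univ]
    apply Set.ncard_image_of_injective
    intro x y hxy
    by_contra hne
    have hz : (x : F) - y ≠ 0 := by
      intro h0
      exact hne (Units.ext (sub_eq_zero.mp h0))
    have h1 : ∀ i < r, l ((g : F) ^ i * ((x : F) - y)) = 0 := by
      intro i hi
      have := List.map_inj_left.mp hxy i (List.mem_range.mpr hi)
      rw [mul_sub, map_sub, this, sub_self]
    have h2 := recur hfr l (g : F) ((x : F) - y) h1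
    apply hl
    by_cases hb : bas ⟨0, hpos⟩ = 0
    · rw [hb, map_zero]
    · obtain ⟨i, hi⟩ := hg (Units.mk0 _ hb * (Units.mk0 _ hz)⁻¹)
      have h3 := h2 i
      have h4 : (g : F) ^ i * ((x : F) - y) = bas ⟨0, hpos⟩ := by
        have h5 : ((g ^ i : Fˣ) : F) = ((Units.mk0 _ hb * (Units.mk0 _ hz)⁻¹ : Fˣ) : F) :=
          congrArg _ hi
        rw [Units.val_pow_eq_pow_val] at h5
        rw [h5, Units.val_mul, Units.val_mk0, Units.val_inv_eq_inv_val, Units.val_mk0,
          mul_assoc, inv_mul_cancel₀ hz, mul_one]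
      rw [h4] at h3
      exact h3

lemma pow_ineq (m r : ℕ) (h : m ≤ r) : (r : ℝ) * (2 ^ m - 1) ≤ m * (2 ^ r - 1) := by
  induction r, h using Nat.le_induction with
  | base => exact le_rfl
  | succ r hmr ih =>
    have h1 : (1 : ℝ) ≤ 2 ^ m := one_le_pow₀ (by norm_num)
    have h2 : (2 : ℝ) ^ m ≤ 2 ^ r := pow_le_pow_right₀ (by norm_num) hmr
    have h3 : (m : ℝ) ≤ 2 ^ m := by exact_mod_cast (Nat.lt_two_pow_self).le
    rcases Nat.eq_zero_or_pos m with rfl | hm
    · simp
    · have h4 : (1 : ℝ) ≤ m := by exact_mod_cast hm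
      push_cast
      rw [pow_succ]
      nlinarith

/-- `B((2^r-1)/r) ≥ 2^(r-1) - 1`, in the form needed -/
theorem exists_log_word (r : ℕ) (hr : 1 ≤ r) (a : ℝ) (ha : (2 ^ r - 1 : ℝ) / r ≤ a) :
    ∃ y ∈ BSet a, (2 : ℤ) ^ (r - 1) - 1 ≤ y := by
  obtain ⟨u, hu1, hu2⟩ := exists_mseq r hr
  have hrpos : (0 : ℝ) < r := by exact_mod_cast hr
  have ha' : (2 ^ r - 1 : ℝ) ≤ a * r := (div_le_iff₀ hrpos).mp ha
  have h2r : (1 : ℕ) ≤ 2 ^ r := Nat.one_le_two_pow
  refine ⟨s u (r - 1), ⟨2, u, ?_, r - 1, rfl⟩, ?_⟩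
  · intro m
    rcases Nat.lt_or_ge r m with hm | hm
    · have h1 : (p u m : ℝ) ≤ 2 ^ r - 1 := by
        have h2 := hu1 m
        have h3 : p u m + 1 ≤ 2 ^ r := by omega
        have h4 : (p u m : ℝ) + 1 ≤ 2 ^ r := by exact_mod_cast h3
        linarith
      have h5 : (r : ℝ) ≤ m := by exact_mod_cast hm.le
      have h6 : 0 ≤ a := by
        have : (0 : ℝ) ≤ (2 ^ r - 1 : ℝ) / r := by
          apply div_nonneg _ hrpos.le
          have : (1 : ℝ) ≤ 2 ^ r := one_le_pow₀ (by norm_num)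
          linarith
        linarith
      have h7 : a * r ≤ a * m := mul_le_mul_of_nonneg_left h5 h6
      show (p u m : ℝ) ≤ a * m + 1
      linarith
    · have h1 : (p u m : ℝ) ≤ 2 ^ m := by exact_mod_cast p_le_two_pow u m
      have h2 := pow_ineq m r hm
      have h3 : (0 : ℝ) ≤ m := Nat.cast_nonneg m
      have h4 : (r : ℝ) * (2 ^ m - 1) ≤ r * (a * m) := by nlinarith
      have h5 : (2 : ℝ) ^ m - 1 ≤ a * m := le_of_mul_le_mul_left h4 hrpos
      show (p u m : ℝ) ≤ a * m + 1
      linarith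
  · have h1 := p_le_two_pow u (r - 1)
    have h2 : r - 1 + 1 = r := by omega
    show (2 : ℤ) ^ (r - 1) - 1 ≤ (p u (r - 1 + 1) : ℤ) - p u (r - 1)
    rw [h2, hu2]
    have h3 : ((2 ^ r - 1 : ℕ) : ℤ) = 2 ^ r - 1 := by
      rw [Nat.cast_sub h2r]; push_cast; rfl
    have h4 : (p u (r - 1) : ℤ) ≤ 2 ^ (r - 1) := by exact_mod_cast h1
    have h5 : (2 : ℤ) ^ r = 2 * 2 ^ (r - 1) := by
      conv_lhs => rw [← h2, pow_succ]
      ring
    rw [h3, h5]
    linarith

theorem exists_r (a : ℝ) (ha : 1 ≤ a) : ∃ r : ℕ, 1 ≤ r ∧ (2 ^ r - 1 : ℝ) / r ≤ a ∧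
    a < (2 ^ (r + 1) - 1 : ℝ) / ((r : ℝ) + 1) := by
  classical
  have hex : ∃ n : ℕ, a < (2 ^ (n + 1 + 1) - 1 : ℝ) / ((n : ℝ) + 1 + 1) := by
    obtain ⟨n, hn⟩ := exists_nat_gt (2 * a)
    refine ⟨n, ?_⟩
    rw [lt_div_iff₀ (by positivity)]
    have h1 : ((n : ℝ) + 1 + 1) * ((n : ℝ) + 1 + 1) ≤ 2 * (2 ^ (n + 1 + 1)) := by
      have : ∀ k : ℕ, (k + 1 + 1) * (k + 1 + 1) ≤ 2 * 2 ^ (k + 1 + 1) := by
        intro k
        induction k with
        | zero => norm_num
        | succ k ih =>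
          have e : 2 * 2 ^ (k + 1 + 1 + 1) = 2 * (2 * 2 ^ (k + 1 + 1)) := by ring
          rw [e]
          rcases Nat.eq_zero_or_pos k with h0 | hpos
          · subst h0; norm_num
          · nlinarith
      exact_mod_cast this n
    have h2 : (0 : ℝ) ≤ n := Nat.cast_nonneg n
    nlinarith
  have hmin := Nat.find_spec hex
  set n := Nat.find hex with hn
  refine ⟨n + 1, by omega, ?_, by push_cast; exact hmin⟩
  rcases Nat.eq_zero_or_pos n with h0 | hpos
  · rw [h0]; norm_num; exact ha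
  · have := Nat.find_min hex (m := n - 1) (by omega)
    push Not at this
    have e1 : n - 1 + 1 + 1 = n + 1 := by omega
    have e2 : ((n - 1 : ℕ) : ℝ) + 1 + 1 = (n : ℝ) + 1 := by
      have : ((n - 1 : ℕ) : ℝ) = (n : ℝ) - 1 := by rw [Nat.cast_sub hpos]; norm_num
      rw [this]; ring
    rw [e1, e2] at this
    push_cast
    exact this

theorem main_log : ∀ a : ℝ, 1 ≤ a → ((a * Real.logb 2 a / 4 - 1 : ℝ) : EReal) ≤ B a := by
  intro a ha
  obtain ⟨r, hr, h1, h2⟩ := exists_r a ha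
  obtain ⟨y, hy, h⟩ := exists_log_word r hr a h1
  unfold B
  refine le_trans ?_ (le_iSup₂ (f := fun (x : ℤ) (_ : x ∈ BSet a) => (((x : ℤ) : ℝ) : EReal)) y hy)
  rw [EReal.coe_le_coe_iff]
  have hy' : (2 : ℝ) ^ (r - 1) - 1 ≤ (y : ℝ) := by exact_mod_cast h
  refine le_trans ?_ hy'
  have hr1 : (0 : ℝ) < (r : ℝ) + 1 := by positivity
  have h3 : a < 2 ^ (r + 1) / ((r : ℝ) + 1) := by
    refine h2.trans_le ?_
    apply div_le_div_of_nonneg_right _ hr1.le
    linarith
  have h4 : a ≤ 2 ^ (r + 1) := by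
    refine h3.le.trans ?_
    apply div_le_self (by positivity)
    have : (0 : ℝ) ≤ r := Nat.cast_nonneg r
    linarith
  have ha0 : 0 < a := by linarith
  have h5 : Real.logb 2 a ≤ (r : ℝ) + 1 := by
    have h6 : Real.logb 2 a ≤ Real.logb 2 (2 ^ (r + 1)) :=
      Real.logb_le_logb_of_le (by norm_num) ha0 h4
    have h7 : Real.logb 2 ((2 : ℝ) ^ (r + 1)) = (r : ℝ) + 1 := by
      rw [Real.logb_pow, Real.logb_self_eq_one (by norm_num)]
      push_cast; ring
    rw [h7] at h6
    exact h6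
  have h8 : 0 ≤ Real.logb 2 a := Real.logb_nonneg (by norm_num) ha
  have h9 : a * Real.logb 2 a ≤ 2 ^ (r + 1) := by
    calc a * Real.logb 2 a ≤ (2 ^ (r + 1) / ((r : ℝ) + 1)) * ((r : ℝ) + 1) :=
          mul_le_mul h3.le h5 h8 (by positivity)
      _ = 2 ^ (r + 1) := by field_simp
  have h10 : (2 : ℝ) ^ (r + 1) = 4 * 2 ^ (r - 1) := by
    have : r + 1 = (r - 1) + 2 := by omega
    rw [this, pow_add]; norm_num; ring
  rw [h10] at h9
  linarith

end Cplx823
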